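import Mathlib

set_option autoImplicit false

namespace Run7.h461.KS

variable {V : Type*} (G : Digraph V)

/-- `X` splits into a part with a quasi-kernel and a part with a quasi-sink -/
def Solv (X : Set V) : Prop :=
  ∃ W : Set V, W ⊆ X ∧
    (∃ A ⊆ W, (∀ a ∈ A, ∀ b ∈ A, ¬ G.Adj a b) ∧
      ∀ v ∈ W, v ∈ A ∨ ∃ a ∈ A, G.Adj a v ∨ ∃ u ∈ W, G.Adj a u ∧ G.Adj u v) ∧
    (∃ B ⊆ X \ W, (∀ a ∈ B, ∀ b ∈ B, ¬ G.Adj a b) ∧
      ∀ v ∈ X \ W, v ∈ B ∨ ∃ b ∈ B, G.Adj v b ∨ ∃ u ∈ X \ W, G.Adj v u ∧ G.Adj u b)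

variable {G}

/-- the reduction step -/
theorem Solv.step {X M : Set V} {s : V} (hM : M ⊆ X) (hMi : ∀ a ∈ M, ∀ b ∈ M, ¬ G.Adj a b)
    (hs : s ∈ X) (hsM : s ∉ M) (hss : ¬ G.Adj s s)
    (hU : ∀ u ∈ X, u ∉ M → (∀ m ∈ M, ¬ G.Adj u m) → ¬ G.Adj s u → ¬ G.Adj u s)
    (h : Solv G {u | u ∈ X ∧ u ∉ M ∧ (∀ m ∈ M, ¬ G.Adj u m) ∧ u ≠ s ∧ ¬ G.Adj s u}) :
    Solv G X := by
  classical
  obtain ⟨W', hW', ⟨A', hA', hAi, hAd⟩, ⟨B', hB', hBi, hBd⟩⟩ := h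
  set U : Set V := {u | u ∈ X ∧ u ∉ M ∧ (∀ m ∈ M, ¬ G.Adj u m) ∧ u ≠ s ∧ ¬ G.Adj s u} with hUdef
  have hUmem : ∀ u, u ∈ U ↔
      (u ∈ X ∧ u ∉ M ∧ (∀ m ∈ M, ¬ G.Adj u m) ∧ u ≠ s ∧ ¬ G.Adj s u) := fun u => Iff.rfl
  -- the dominated part outside `U`
  set D : Set V := {v | v ∈ X ∧ v ∉ M ∧ (∀ m ∈ M, ¬ G.Adj v m) ∧ v ≠ s ∧ G.Adj s v} with hDdef
  set W : Set V := insert s (W' ∪ D) with hWdef
  set B : Set V := B' ∪ {m | m ∈ M ∧ ∀ b ∈ B', ¬ G.Adj m b} with hBdef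
  have hWX : W ⊆ X := by
    rintro v (rfl | hv | hv)
    · exact hs
    · exact (hW' hv).1
    · exact hv.1
  have hWM : ∀ v ∈ W, v ∉ M := by
    rintro v (rfl | hv | hv)
    · exact hsM
    · exact (hW' hv).2.1
    · exact hv.2.1
  have hMW : ∀ m ∈ M, m ∈ X \ W := fun m hm => ⟨hM hm, fun h => hWM m h hm⟩
  have hB'W : ∀ b ∈ B', b ∈ X \ W := by
    intro b hb
    have hb' := hB' hb
    refine ⟨hb'.1.1, ?_⟩
    rintro (rfl | h | h)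
    · exact hb'.1.2.2.2.1 rfl
    · exact hb'.2 h
    · exact hb'.1.2.2.2.2 h.2.2.2.2
  refine ⟨W, hWX, ⟨insert s A', ?_, ?_, ?_⟩, ⟨B, ?_, ?_, ?_⟩⟩
  · rintro v (rfl | hv)
    · exact Or.inl rfl
    · exact Or.inr (Or.inl (hA' hv))
  · have key : ∀ a ∈ A', ¬ G.Adj s a ∧ ¬ G.Adj a s := by
      intro a ha
      have ha' := hW' (hA' ha)
      exact ⟨ha'.2.2.2.2, hU a ha'.1 ha'.2.1 ha'.2.2.1 ha'.2.2.2.2⟩
    rintro a (rfl | ha) b (rfl | hb)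
    · exact hss
    · exact (key b hb).1
    · exact (key a ha).2
    · exact hAi a ha b hb
  · rintro v (rfl | hv | hv)
    · exact Or.inl (Or.inl rfl)
    · rcases hAd v hv with h | ⟨a, ha, h | ⟨u, hu, h1, h2⟩⟩
      · exact Or.inl (Or.inr h)
      · exact Or.inr ⟨a, Or.inr ha, Or.inl h⟩
      · exact Or.inr ⟨a, Or.inr ha, Or.inr ⟨u, Or.inr (Or.inl hu), h1, h2⟩⟩
    · exact Or.inr ⟨s, Or.inl rfl, Or.inl hv.2.2.2.2⟩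
  · rintro v (hv | hv)
    · exact hB'W v hv
    · exact hMW v hv.1
  · rintro a (ha | ha) b (hb | hb)
    · exact hBi a ha b hb
    · exact (hB' ha).1.2.2.1 b hb.1
    · exact ha.2 b hb
    · exact hMi a ha.1 b hb.1
  · rintro v ⟨hvX, hvW⟩
    -- every element of `M` is in `B` or sends an edge to `B'`
    have hMB : ∀ m ∈ M, m ∈ B ∨ ∃ b ∈ B', G.Adj m b := by
      intro m hm
      by_cases h : ∃ b ∈ B', G.Adj m b
      · exact Or.inr h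
      · push Not at h
        exact Or.inl (Or.inr ⟨hm, h⟩)
    by_cases hvM : v ∈ M
    · rcases hMB v hvM with h | ⟨b, hb, h⟩
      · exact Or.inl h
      · exact Or.inr ⟨b, Or.inl hb, Or.inl h⟩
    by_cases hvm : ∃ m ∈ M, G.Adj v m
    · obtain ⟨m, hm, hvm⟩ := hvm
      rcases hMB m hm with h | ⟨b, hb, h⟩
      · exact Or.inr ⟨m, h, Or.inl hvm⟩
      · exact Or.inr ⟨b, Or.inl hb, Or.inr ⟨m, hMW m hm, hvm, h⟩⟩
    push Not at hvm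
    have hvs : v ≠ s := fun h => hvW (Or.inl h)
    have hsv : ¬ G.Adj s v := fun h => hvW (Or.inr (Or.inr ⟨hvX, hvM, hvm, hvs, h⟩))
    have hvU : v ∈ U := ⟨hvX, hvM, hvm, hvs, hsv⟩
    have hvW' : v ∉ W' := fun h => hvW (Or.inr (Or.inl h))
    rcases hBd v ⟨hvU, hvW'⟩ with h | ⟨b, hb, h | ⟨u, hu, h1, h2⟩⟩
    · exact Or.inl (Or.inl h)
    · exact Or.inr ⟨b, Or.inl hb, Or.inl h⟩
    · refine Or.inr ⟨b, Or.inl hb, Or.inr ⟨u, ⟨hu.1.1, ?_⟩, h1, h2⟩⟩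
      rintro (rfl | h | h)
      · exact hu.1.2.2.2.1 rfl
      · exact hu.2 h
      · exact hu.1.2.2.2.2 h.2.2.2.2

/-- maximal independent sets exist -/
theorem exists_max_indep (hl : ∀ v, ¬ G.Adj v v) (X : Set V) :
    ∃ M ⊆ X, (∀ a ∈ M, ∀ b ∈ M, ¬ G.Adj a b) ∧
      ∀ v ∈ X, v ∉ M → ∃ m ∈ M, G.Adj v m ∨ G.Adj m v := by
  obtain ⟨M, hM⟩ := zorn_subset {S : Set V | S ⊆ X ∧ ∀ a ∈ S, ∀ b ∈ S, ¬ G.Adj a b} (by
    intro c hc hchain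
    refine ⟨⋃₀ c, ⟨?_, ?_⟩, fun s hs => Set.subset_sUnion_of_mem hs⟩
    · exact Set.sUnion_subset fun s hs => (hc hs).1
    · rintro a ⟨s, hs, ha⟩ b ⟨t, ht, hb⟩
      rcases hchain.total hs ht with h | h
      · exact (hc ht).2 a (h ha) b hb
      · exact (hc hs).2 a ha b (h hb))
  refine ⟨M, hM.prop.1, hM.prop.2, fun v hv hvM => ?_⟩
  by_contra hcon
  push Not at hcon
  apply hvM
  have : insert v M ∈ {S : Set V | S ⊆ X ∧ ∀ a ∈ S, ∀ b ∈ S, ¬ G.Adj a b} := by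
    refine ⟨Set.insert_subset hv hM.prop.1, ?_⟩
    rintro a (rfl | ha) b (rfl | hb)
    · exact hl _
    · exact (hcon b hb).1
    · exact (hcon a ha).2
    · exact hM.prop.2 a ha b hb
  exact hM.le_of_ge this (Set.subset_insert v M) (Set.mem_insert v M)

/-- from an unsolvable set one gets a vertex and a smaller unsolvable set not adjacent to it -/
theorem unsolv_step (hl : ∀ v, ¬ G.Adj v v) {X : Set V} (hX : ¬ Solv G X) :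
    ∃ s ∈ X, ∃ U ⊆ X, ¬ Solv G U ∧ ∀ u ∈ U, u ≠ s ∧ ¬ G.Adj u s ∧ ¬ G.Adj s u := by
  obtain ⟨M, hM, hMi, hMmax⟩ := exists_max_indep hl X
  by_cases hq : ∀ v ∈ X, v ∈ M ∨ ∃ a ∈ M, G.Adj a v ∨ ∃ u ∈ X, G.Adj a u ∧ G.Adj u v
  · exfalso
    apply hX
    refine ⟨X, subset_rfl, ⟨M, hM, hMi, hq⟩, ⟨∅, Set.empty_subset _, by simp, ?_⟩⟩
    rintro v ⟨h1, h2⟩
    exact absurd h1 h2
  · push Not at hq
    obtain ⟨s, hs, hsM, hsr⟩ := hq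
    have hU : ∀ u ∈ X, u ∉ M → (∀ m ∈ M, ¬ G.Adj u m) → ¬ G.Adj s u → ¬ G.Adj u s := by
      intro u hu huM hum _ hus
      obtain ⟨m, hm, h | h⟩ := hMmax u hu huM
      · exact hum m hm h
      · exact (hsr m hm).2 u hu h hus
    refine ⟨s, hs, {u | u ∈ X ∧ u ∉ M ∧ (∀ m ∈ M, ¬ G.Adj u m) ∧ u ≠ s ∧ ¬ G.Adj s u},
      fun u hu => hu.1, ?_, ?_⟩
    · intro h
      exact hX (Solv.step hM hMi hs hsM (hl s) hU h)
    · rintro u ⟨h1, h2, h3, h4, h5⟩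
      exact ⟨h4, hU u h1 h2 h3 h5, h5⟩

/-- an unsolvable set contains an infinite independent set -/
theorem exists_indep_seq (hl : ∀ v, ¬ G.Adj v v) {X : Set V} (hX : ¬ Solv G X) :
    ∃ f : ℕ → V, (∀ n, f n ∈ X) ∧ ∀ i j, i ≠ j → f i ≠ f j ∧ ¬ G.Adj (f i) (f j) := by
  classical
  let T := {Y : Set V // Y ⊆ X ∧ ¬ Solv G Y}
  have hstep : ∀ Y : T, ∃ p : V × T, p.1 ∈ Y.1 ∧ p.2.1 ⊆ Y.1 ∧
      ∀ u ∈ p.2.1, u ≠ p.1 ∧ ¬ G.Adj u p.1 ∧ ¬ G.Adj p.1 u := by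
    rintro ⟨Y, hY, hYs⟩
    obtain ⟨s, hs, U, hU, hUs, h⟩ := unsolv_step hl hYs
    exact ⟨(s, ⟨U, hU.trans hY, hUs⟩), hs, hU, h⟩
  choose g hg1 hg2 hg3 using hstep
  let Y : ℕ → T := fun n => Nat.rec ⟨X, subset_rfl, hX⟩ (fun _ Z => (g Z).2) n
  have hY : ∀ n, Y (n+1) = (g (Y n)).2 := fun n => rfl
  have hanti : ∀ m n, m ≤ n → (Y n).1 ⊆ (Y m).1 := by
    intro m n hmn
    induction hmn with
    | refl => exact subset_rfl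
    | step _ ih => rw [hY]; exact (hg2 _).trans ih
  refine ⟨fun n => (g (Y n)).1, fun n => (Y n).2.1 (hg1 _), ?_⟩
  have key : ∀ i j, i < j → (g (Y i)).1 ≠ (g (Y j)).1 ∧ ¬ G.Adj (g (Y i)).1 (g (Y j)).1 ∧
      ¬ G.Adj (g (Y j)).1 (g (Y i)).1 := by
    intro i j hij
    have h1 : (g (Y j)).1 ∈ (g (Y i)).2.1 := by
      have := hanti (i+1) j hij (hg1 (Y j))
      rwa [hY] at this
    obtain ⟨h2, h3, h4⟩ := hg3 (Y i) _ h1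
    exact ⟨h2.symm, h4, h3⟩
  intro i j hij
  rcases lt_or_gt_of_ne hij with h | h
  · exact ⟨(key i j h).1, (key i j h).2.1⟩
  · exact ⟨(key j i h).1.symm, (key j i h).2.2⟩

end Run7.h461.KS
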