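import Pool.Agent.Run7.h461.KS.Core

set_option autoImplicit false

namespace Run7.h461.KS

universe u

variable {V : Type u} (G : Digraph V)

/-- `Y` has a quasi-kernel (inside `Y`) -/
def HasQK (Y : Set V) : Prop :=
  ∃ A ⊆ Y, (∀ a ∈ A, ∀ b ∈ A, ¬ G.Adj a b) ∧
    ∀ v ∈ Y, v ∈ A ∨ ∃ a ∈ A, G.Adj a v ∨ ∃ u ∈ Y, G.Adj a u ∧ G.Adj u v

/-- `Y` has a quasi-sink (inside `Y`) -/
def HasQS (Y : Set V) : Prop :=
  ∃ B ⊆ Y, (∀ a ∈ B, ∀ b ∈ B, ¬ G.Adj a b) ∧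
    ∀ v ∈ Y, v ∈ B ∨ ∃ b ∈ B, G.Adj v b ∨ ∃ u ∈ Y, G.Adj v u ∧ G.Adj u b

variable {G}

/-- independent sets extend to maximal ones -/
theorem exists_max_indep_ext (hl : ∀ v, ¬ G.Adj v v) (X I : Set V) (hIX : I ⊆ X)
    (hI : ∀ a ∈ I, ∀ b ∈ I, ¬ G.Adj a b) :
    ∃ M ⊆ X, I ⊆ M ∧ (∀ a ∈ M, ∀ b ∈ M, ¬ G.Adj a b) ∧
      ∀ v ∈ X, v ∉ M → ∃ m ∈ M, G.Adj v m ∨ G.Adj m v := by
  obtain ⟨M, hIM, hM⟩ := zorn_subset_nonempty {S : Set V | S ⊆ X ∧ ∀ a ∈ S, ∀ b ∈ S, ¬ G.Adj a b} (by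
    intro c hc hchain _
    refine ⟨⋃₀ c, ⟨?_, ?_⟩, fun s hs => Set.subset_sUnion_of_mem hs⟩
    · exact Set.sUnion_subset fun s hs => (hc hs).1
    · rintro a ⟨s, hs, ha⟩ b ⟨t, ht, hb⟩
      rcases hchain.total hs ht with h | h
      · exact (hc ht).2 a (h ha) b hb
      · exact (hc hs).2 a ha b (h hb)) I ⟨hIX, hI⟩
  refine ⟨M, hM.prop.1, hIM, hM.prop.2, fun v hv hvM => ?_⟩
  by_contra hcon
  push Not at hcon
  apply hvM
  have : insert v M ∈ {S : Set V | S ⊆ X ∧ ∀ a ∈ S, ∀ b ∈ S, ¬ G.Adj a b} := by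
    refine ⟨Set.insert_subset hv hM.prop.1, ?_⟩
    rintro a (rfl | ha) b (rfl | hb)
    · exact hl _
    · exact (hcon b hb).1
    · exact (hcon a ha).2
    · exact hM.prop.2 a ha b hb
  exact hM.le_of_ge this (Set.subset_insert v M) (Set.mem_insert v M)

/-- from an unsolvable set one gets a vertex outside a set with a quasi-kernel and a smaller
unsolvable set not adjacent to it -/
theorem unsolv_step_avoid (hl : ∀ v, ¬ G.Adj v v) {X F : Set V} (hX : ¬ Solv G X)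
    (hF : HasQK G (X ∩ F)) :
    ∃ s ∈ X, s ∉ F ∧ ∃ U ⊆ X, ¬ Solv G U ∧ ∀ u ∈ U, u ≠ s ∧ ¬ G.Adj u s ∧ ¬ G.Adj s u := by
  obtain ⟨A, hAF, hAi, hAd⟩ := hF
  obtain ⟨M, hM, hAM, hMi, hMmax⟩ := exists_max_indep_ext hl X A
    (hAF.trans Set.inter_subset_left) hAi
  by_cases hq : ∀ v ∈ X, v ∈ M ∨ ∃ a ∈ M, G.Adj a v ∨ ∃ u ∈ X, G.Adj a u ∧ G.Adj u v
  · exfalso
    apply hX
    refine ⟨X, subset_rfl, ⟨M, hM, hMi, hq⟩, ⟨∅, Set.empty_subset _, by simp, ?_⟩⟩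
    rintro v ⟨h1, h2⟩
    exact absurd h1 h2
  · push Not at hq
    obtain ⟨s, hs, hsM, hsr⟩ := hq
    have hsF : s ∉ F := by
      intro hsF
      rcases hAd s ⟨hs, hsF⟩ with h | ⟨a, ha, h | ⟨u, hu, h1, h2⟩⟩
      · exact hsM (hAM h)
      · exact (hsr a (hAM ha)).1 h
      · exact (hsr a (hAM ha)).2 u hu.1 h1 h2
    have hU : ∀ u ∈ X, u ∉ M → (∀ m ∈ M, ¬ G.Adj u m) → ¬ G.Adj s u → ¬ G.Adj u s := by
      intro u hu huM hum _ hus
      obtain ⟨m, hm, h | h⟩ := hMmax u hu huM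
      · exact hum m hm h
      · exact (hsr m hm).2 u hu h hus
    refine ⟨s, hs, hsF, {u | u ∈ X ∧ u ∉ M ∧ (∀ m ∈ M, ¬ G.Adj u m) ∧ u ≠ s ∧ ¬ G.Adj s u},
      fun u hu => hu.1, ?_, ?_⟩
    · intro h
      exact hX (Solv.step hM hMi hs hsM (hl s) hU h)
    · rintro u ⟨h1, h2, h3, h4, h5⟩
      exact ⟨h4, hU u h1 h2 h3 h5, h5⟩

/-- an unsolvable set contains an infinite independent set avoiding a given hereditarily
quasi-kernelled set -/
theorem exists_indep_seq_avoid (hl : ∀ v, ¬ G.Adj v v) {X F : Set V} (hX : ¬ Solv G X)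
    (hF : ∀ Y ⊆ F, HasQK G Y) :
    ∃ f : ℕ → V, (∀ n, f n ∈ X ∧ f n ∉ F) ∧ ∀ i j, i ≠ j → f i ≠ f j ∧ ¬ G.Adj (f i) (f j) := by
  classical
  let T := {Y : Set V // Y ⊆ X ∧ ¬ Solv G Y}
  have hstep : ∀ Y : T, ∃ p : V × T, (p.1 ∈ Y.1 ∧ p.1 ∉ F) ∧ p.2.1 ⊆ Y.1 ∧
      ∀ u ∈ p.2.1, u ≠ p.1 ∧ ¬ G.Adj u p.1 ∧ ¬ G.Adj p.1 u := by
    rintro ⟨Y, hY, hYs⟩
    obtain ⟨s, hs, hsF, U, hU, hUs, h⟩ := unsolv_step_avoid hl hYs (F := F)
      (hF _ Set.inter_subset_right)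
    exact ⟨(s, ⟨U, hU.trans hY, hUs⟩), ⟨hs, hsF⟩, hU, h⟩
  choose g hg1 hg2 hg3 using hstep
  let Y : ℕ → T := fun n => Nat.rec ⟨X, subset_rfl, hX⟩ (fun _ Z => (g Z).2) n
  have hY : ∀ n, Y (n+1) = (g (Y n)).2 := fun n => rfl
  have hanti : ∀ m n, m ≤ n → (Y n).1 ⊆ (Y m).1 := by
    intro m n hmn
    induction hmn with
    | refl => exact subset_rfl
    | step _ ih => rw [hY]; exact (hg2 _).trans ih
  refine ⟨fun n => (g (Y n)).1, fun n => ⟨(Y n).2.1 (hg1 _).1, (hg1 _).2⟩, ?_⟩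
  have key : ∀ i j, i < j → (g (Y i)).1 ≠ (g (Y j)).1 ∧ ¬ G.Adj (g (Y i)).1 (g (Y j)).1 ∧
      ¬ G.Adj (g (Y j)).1 (g (Y i)).1 := by
    intro i j hij
    have h1 : (g (Y j)).1 ∈ (g (Y i)).2.1 := by
      have := hanti (i+1) j hij (hg1 (Y j)).1
      rwa [hY] at this
    obtain ⟨h2, h3, h4⟩ := hg3 (Y i) _ h1
    exact ⟨h2.symm, h4, h3⟩
  intro i j hij
  rcases lt_or_gt_of_ne hij with h | h
  · exact ⟨(key i j h).1, (key i j h).2.1⟩
  · exact ⟨(key j i h).1.symm, (key j i h).2.2⟩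

/-- the reversed digraph -/
def rev (G : Digraph V) : Digraph V := ⟨fun a b => G.Adj b a⟩

theorem solv_rev {X : Set V} (h : Solv (rev G) X) : Solv G X := by
  obtain ⟨W, hW, ⟨A, hA, hAi, hAd⟩, ⟨B, hB, hBi, hBd⟩⟩ := h
  have hXW : X \ (X \ W) = W := by
    rw [Set.sdiff_sdiff_cancel_left hW]
  refine ⟨X \ W, Set.sdiff_subset, ⟨B, hB, ?_, ?_⟩, ⟨A, ?_, ?_, ?_⟩⟩
  · exact fun a ha b hb => hBi b hb a ha
  · intro v hv
    rcases hBd v hv with h | ⟨b, hb, h | ⟨u, hu, h1, h2⟩⟩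
    · exact Or.inl h
    · exact Or.inr ⟨b, hb, Or.inl h⟩
    · exact Or.inr ⟨b, hb, Or.inr ⟨u, hu, h2, h1⟩⟩
  · rw [hXW]; exact hA
  · exact fun a ha b hb => hAi b hb a ha
  · rw [hXW]
    intro v hv
    rcases hAd v hv with h | ⟨b, hb, h | ⟨u, hu, h1, h2⟩⟩
    · exact Or.inl h
    · exact Or.inr ⟨b, hb, Or.inl h⟩
    · exact Or.inr ⟨b, hb, Or.inr ⟨u, hu, h2, h1⟩⟩

theorem hasQK_rev {Y : Set V} (h : HasQS G Y) : HasQK (rev G) Y := by
  obtain ⟨B, hB, hBi, hBd⟩ := h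
  refine ⟨B, hB, fun a ha b hb => hBi b hb a ha, fun v hv => ?_⟩
  rcases hBd v hv with h | ⟨b, hb, h | ⟨u, hu, h1, h2⟩⟩
  · exact Or.inl h
  · exact Or.inr ⟨b, hb, Or.inl h⟩
  · exact Or.inr ⟨b, hb, Or.inr ⟨u, hu, h2, h1⟩⟩

/-- hereditarily quasi-kernelled sets absorb independent sets -/
theorem hered_union_indep {F I : Set V}
    (hF : ∀ Y ⊆ F, HasQK G Y) (hI : ∀ a ∈ I, ∀ b ∈ I, ¬ G.Adj a b) :
    ∀ Y ⊆ F ∪ I, HasQK G Y := by
  intro Y hY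
  -- remove from `Y` the set `I` and everything it dominates
  set Z : Set V := {v | v ∈ Y ∧ v ∉ I ∧ ∀ m ∈ Y ∩ I, ¬ G.Adj m v} with hZ
  have hZF : Z ⊆ F := by
    intro v hv
    rcases hY hv.1 with h | h
    · exact h
    · exact absurd h hv.2.1
  obtain ⟨A, hA, hAi, hAd⟩ := hF Z hZF
  refine ⟨A ∪ {m | m ∈ Y ∩ I ∧ ∀ a ∈ A, ¬ G.Adj a m}, ?_, ?_, ?_⟩
  · rintro v (hv | hv)
    · exact (hA hv).1
    · exact hv.1.1
  · rintro a (ha | ha) b (hb | hb)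
    · exact hAi a ha b hb
    · exact hb.2 a ha
    · exact (hA hb).2.2 a ha.1
    · exact hI a ha.1.2 b hb.1.2
  · intro v hv
    have hm : ∀ m ∈ Y ∩ I, (m ∈ A ∪ {m | m ∈ Y ∩ I ∧ ∀ a ∈ A, ¬ G.Adj a m}) ∨
        ∃ a ∈ A, G.Adj a m := by
      intro m hm
      by_cases h : ∃ a ∈ A, G.Adj a m
      · exact Or.inr h
      · push Not at h
        exact Or.inl (Or.inr ⟨hm, h⟩)
    by_cases hvI : v ∈ I
    · rcases hm v ⟨hv, hvI⟩ with h | ⟨a, ha, h⟩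
      · exact Or.inl h
      · exact Or.inr ⟨a, Or.inl ha, Or.inl h⟩
    by_cases hvm : ∃ m ∈ Y ∩ I, G.Adj m v
    · obtain ⟨m, hmY, hmv⟩ := hvm
      rcases hm m hmY with h | ⟨a, ha, h⟩
      · exact Or.inr ⟨m, h, Or.inl hmv⟩
      · exact Or.inr ⟨a, Or.inl ha, Or.inr ⟨m, hmY.1, h, hmv⟩⟩
    push Not at hvm
    rcases hAd v ⟨hv, hvI, hvm⟩ with h | ⟨a, ha, h | ⟨u, hu, h1, h2⟩⟩
    · exact Or.inl (Or.inl h)
    · exact Or.inr ⟨a, Or.inl ha, Or.inl h⟩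
    · exact Or.inr ⟨a, Or.inl ha, Or.inr ⟨u, hu.1, h1, h2⟩⟩

/-- finite digraphs have quasi-kernels (Chvatal-Lovasz) -/
theorem finite_hasQK (hl : ∀ v, ¬ G.Adj v v) (S : Finset V) : ∀ Y ⊆ (S : Set V), HasQK G Y := by
  classical
  induction S using Finset.induction_on with
  | empty =>
    intro Y hY
    have : Y = ∅ := Set.subset_empty_iff.mp (by simpa using hY)
    subst this
    exact ⟨∅, subset_rfl, by simp, by simp⟩
  | insert a S _ ih =>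
    have h := hered_union_indep (I := {a}) ih (by
      rintro x hx y hy
      rw [Set.mem_singleton_iff] at hx hy
      subst hx; subst hy; exact hl _)
    intro Y hY
    apply h Y
    intro y hy
    have := hY hy
    rw [Finset.coe_insert] at this
    rcases this with h | h
    · exact Or.inr h
    · exact Or.inl h

/-- compactness: finite in-degrees give quasi-kernels -/
theorem hasQK_of_finite_indegree (hl : ∀ v, ¬ G.Adj v v) {F : Set V}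
    (hF : ∀ v ∈ F, {u | G.Adj u v ∧ u ∈ F}.Finite) : ∀ Y ⊆ F, HasQK G Y := by
  classical
  intro Y hYF
  have hfin : ∀ v ∈ Y, {u | G.Adj u v ∧ u ∈ Y}.Finite := fun v hv =>
    (hF v (hYF hv)).subset fun u hu => ⟨hu.1, hYF hu.2⟩
  -- quasi-kernels of the finite subsets of `Y`
  have hS : ∀ S : Finset V, HasQK G (Y ∩ (S : Set V)) := fun S =>
    finite_hasQK hl S _ Set.inter_subset_right
  choose A hA hAi hAd using hS
  -- an ultrafilter refining the order filter on finite sets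
  let 𝒰 : Ultrafilter (Finset V) := Ultrafilter.of Filter.atTop
  have hle : (𝒰 : Filter (Finset V)) ≤ Filter.atTop := Ultrafilter.of_le _
  have hmem : ∀ v : V, ∀ᶠ S in (𝒰 : Filter (Finset V)), v ∈ S := fun v =>
    hle (Filter.eventually_atTop.2 ⟨{v}, fun S hS => hS (Finset.mem_singleton_self v)⟩)
  refine ⟨{v | ∀ᶠ S in (𝒰 : Filter (Finset V)), v ∈ A S}, ?_, ?_, ?_⟩
  · intro v hv
    obtain ⟨S, hS⟩ := hv.exists
    exact (hA S hS).1
  · intro a ha b hb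
    obtain ⟨S, h1, h2⟩ := (ha.and hb).exists
    exact hAi S a h1 b h2
  · intro v hv
    have h0 : ∀ᶠ S in (𝒰 : Filter (Finset V)), v ∈ A S ∨
        ((∃ a ∈ {u | G.Adj u v ∧ u ∈ Y}, a ∈ A S) ∨
          ∃ u ∈ {u | G.Adj u v ∧ u ∈ Y}, ∃ a ∈ {a | G.Adj a u ∧ a ∈ Y}, a ∈ A S) := by
      filter_upwards [hmem v] with S hvS
      rcases hAd S v ⟨hv, hvS⟩ with h | ⟨a, ha, h | ⟨u, hu, h1, h2⟩⟩
      · exact Or.inl h
      · exact Or.inr (Or.inl ⟨a, ⟨h, (hA S ha).1⟩, ha⟩)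
      · exact Or.inr (Or.inr ⟨u, ⟨h2, hu.1⟩, a, ⟨h1, (hA S ha).1⟩, ha⟩)
    rw [Ultrafilter.eventually_or, Ultrafilter.eventually_or] at h0
    rcases h0 with h | h | h
    · exact Or.inl h
    · have h' : ∃ a ∈ {u | G.Adj u v ∧ u ∈ Y}, ∀ᶠ S in (𝒰 : Filter (Finset V)), a ∈ A S := by
        have := (Ultrafilter.finite_biUnion_mem_iff (f := 𝒰) (hfin v hv)
          (s := fun a => {S : Finset V | a ∈ A S})).1 (by
            filter_upwards [h] with S hS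
            obtain ⟨a, ha, haS⟩ := hS
            exact Set.mem_biUnion ha haS)
        obtain ⟨a, ha, h2⟩ := this
        exact ⟨a, ha, h2⟩
      obtain ⟨a, ha, h2⟩ := h'
      exact Or.inr ⟨a, h2, Or.inl ha.1⟩
    · have h' : ∃ u ∈ {u | G.Adj u v ∧ u ∈ Y}, ∀ᶠ S in (𝒰 : Filter (Finset V)),
          ∃ a ∈ {a | G.Adj a u ∧ a ∈ Y}, a ∈ A S := by
        have := (Ultrafilter.finite_biUnion_mem_iff (f := 𝒰) (hfin v hv)
          (s := fun u => {S : Finset V | ∃ a ∈ {a | G.Adj a u ∧ a ∈ Y}, a ∈ A S})).1 (by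
            filter_upwards [h] with S hS
            obtain ⟨u, hu, huS⟩ := hS
            exact Set.mem_biUnion hu huS)
        obtain ⟨u, hu, h2⟩ := this
        exact ⟨u, hu, h2⟩
      obtain ⟨u, hu, h2⟩ := h'
      have h'' : ∃ a ∈ {a | G.Adj a u ∧ a ∈ Y}, ∀ᶠ S in (𝒰 : Filter (Finset V)), a ∈ A S := by
        have := (Ultrafilter.finite_biUnion_mem_iff (f := 𝒰) (hfin u hu.2)
          (s := fun a => {S : Finset V | a ∈ A S})).1 (by
            filter_upwards [h2] with S hS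
            obtain ⟨a, ha, haS⟩ := hS
            exact Set.mem_biUnion ha haS)
        obtain ⟨a, ha, h2⟩ := this
        exact ⟨a, ha, h2⟩
      obtain ⟨a, ha, h3⟩ := h''
      exact Or.inr ⟨a, h3, Or.inr ⟨u, hu.2, ha.1, hu.1⟩⟩

/-- solving each weak component separately -/
theorem solv_of_components (h : ∀ c : V, Solv G {v | Relation.EqvGen G.Adj c v}) :
    Solv G Set.univ := by
  classical
  let S : Setoid V := Relation.EqvGen.setoid G.Adj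
  have hadj : ∀ a b, G.Adj a b → (Quotient.mk S a) = Quotient.mk S b := fun a b hab =>
    Quotient.sound (Relation.EqvGen.rel _ _ hab)
  have h' : ∀ q : Quotient S, Solv G {v | Quotient.mk S v = q} := by
    intro q
    obtain ⟨c, rfl⟩ := Quotient.exists_rep q
    have hset : {v | Quotient.mk S v = Quotient.mk S c} = {v | Relation.EqvGen G.Adj c v} := by
      ext v
      constructor
      · intro hv
        exact Relation.EqvGen.symm _ _ (Quotient.exact hv)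
      · intro hv
        exact Quotient.sound (Relation.EqvGen.symm _ _ hv)
    rw [hset]; exact h c
  unfold Solv at h'
  choose W hW hh using h'
  choose A hA hAi hAd using fun q => (hh q).1
  choose B hB hBi hBd using fun q => (hh q).2
  have hWq : ∀ q v, v ∈ W q → Quotient.mk S v = q := fun q v hv => hW q hv
  refine ⟨{v | v ∈ W (Quotient.mk S v)}, Set.subset_univ _,
    ⟨{v | v ∈ A (Quotient.mk S v)}, fun v hv => hA _ hv, ?_, ?_⟩,
    ⟨{v | v ∈ B (Quotient.mk S v)}, ?_, ?_, ?_⟩⟩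
  · intro a ha b hb hab
    have hq := hadj a b hab
    have hb' : b ∈ A (Quotient.mk S a) := by rw [hq]; exact hb
    exact hAi _ a ha b hb' hab
  · intro v hv
    rcases hAd _ v hv with h | ⟨a, ha, h | ⟨u, hu, h1, h2⟩⟩
    · exact Or.inl h
    · refine Or.inr ⟨a, ?_, Or.inl h⟩
      change a ∈ A _
      rw [hadj a v h]; exact ha
    · refine Or.inr ⟨a, ?_, Or.inr ⟨u, ?_, h1, h2⟩⟩
      · change a ∈ A _
        rw [hadj a u h1, hadj u v h2]; exact ha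
      · change u ∈ W _
        rw [hadj u v h2]; exact hu
  · intro v hv
    exact ⟨trivial, fun h => (hB _ hv).2 h⟩
  · intro a ha b hb hab
    have hq := hadj a b hab
    have hb' : b ∈ B (Quotient.mk S a) := by rw [hq]; exact hb
    exact hBi _ a ha b hb' hab
  · rintro v ⟨-, hv⟩
    rcases hBd (Quotient.mk S v) v ⟨rfl, hv⟩ with h | ⟨b, hb, h | ⟨u, hu, h1, h2⟩⟩
    · exact Or.inl h
    · refine Or.inr ⟨b, ?_, Or.inl h⟩
      change b ∈ B _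
      rw [← hadj v b h]; exact hb
    · refine Or.inr ⟨b, ?_, Or.inr ⟨u, ?_, h1, h2⟩⟩
      · change b ∈ B _
        rw [← hadj u b h2, ← hadj v u h1]; exact hb
      · refine ⟨trivial, ?_⟩
        change ¬ (u ∈ W _)
        rw [← hadj v u h1]; exact hu.2

end Run7.h461.KS
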