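import Pool.Agent.Run7.h461.KS.Hered

set_option autoImplicit false

namespace Run7.h461.KS

universe u

variable {V : Type u} {G : Digraph V}

/-- the general reduction: remove everything absorbed by the independent set `M` and everything
dominated by the independent set `S`, where `M` and `S` are disjoint -/
theorem Solv.red {X M S : Set V} (hM : M ⊆ X) (hMi : ∀ a ∈ M, ∀ b ∈ M, ¬ G.Adj a b)
    (hS : S ⊆ X) (hSi : ∀ a ∈ S, ∀ b ∈ S, ¬ G.Adj a b) (hSM : ∀ s ∈ S, s ∉ M)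
    (h : Solv G {u | u ∈ X ∧ u ∉ M ∧ (∀ m ∈ M, ¬ G.Adj u m) ∧ u ∉ S ∧ ∀ s ∈ S, ¬ G.Adj s u}) :
    Solv G X := by
  classical
  obtain ⟨W', hW', ⟨A', hA', hAi, hAd⟩, ⟨B', hB', hBi, hBd⟩⟩ := h
  set U : Set V := {u | u ∈ X ∧ u ∉ M ∧ (∀ m ∈ M, ¬ G.Adj u m) ∧ u ∉ S ∧ ∀ s ∈ S, ¬ G.Adj s u}
    with hUdef
  -- the dominated part outside `U`
  set D : Set V := {v | v ∈ X ∧ v ∉ M ∧ (∀ m ∈ M, ¬ G.Adj v m) ∧ v ∉ S ∧ ∃ s ∈ S, G.Adj s v}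
    with hDdef
  set W : Set V := S ∪ (W' ∪ D) with hWdef
  set A : Set V := A' ∪ {s | s ∈ S ∧ ∀ a ∈ A', ¬ G.Adj a s} with hAdef
  set B : Set V := B' ∪ {m | m ∈ M ∧ ∀ b ∈ B', ¬ G.Adj m b} with hBdef
  have hWX : W ⊆ X := by
    rintro v (hv | hv | hv)
    · exact hS hv
    · exact (hW' hv).1
    · exact hv.1
  have hWM : ∀ v ∈ W, v ∉ M := by
    rintro v (hv | hv | hv)
    · exact hSM v hv
    · exact (hW' hv).2.1
    · exact hv.2.1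
  have hMW : ∀ m ∈ M, m ∈ X \ W := fun m hm => ⟨hM hm, fun h => hWM m h hm⟩
  have hUW : ∀ b ∈ U, b ∉ W' → b ∈ X \ W := by
    intro b hb hbW
    refine ⟨hb.1, ?_⟩
    rintro (h | h | h)
    · exact hb.2.2.2.1 h
    · exact hbW h
    · obtain ⟨s, hs, hsb⟩ := h.2.2.2.2
      exact hb.2.2.2.2 s hs hsb
  have hSA : ∀ s ∈ S, s ∈ A ∨ ∃ a ∈ A', G.Adj a s := by
    intro s hs
    by_cases h : ∃ a ∈ A', G.Adj a s
    · exact Or.inr h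
    · push Not at h
      exact Or.inl (Or.inr ⟨hs, h⟩)
  have hMB : ∀ m ∈ M, m ∈ B ∨ ∃ b ∈ B', G.Adj m b := by
    intro m hm
    by_cases h : ∃ b ∈ B', G.Adj m b
    · exact Or.inr h
    · push Not at h
      exact Or.inl (Or.inr ⟨hm, h⟩)
  refine ⟨W, hWX, ⟨A, ?_, ?_, ?_⟩, ⟨B, ?_, ?_, ?_⟩⟩
  · rintro v (hv | hv)
    · exact Or.inr (Or.inl (hA' hv))
    · exact Or.inl hv.1
  · rintro a (ha | ha) b (hb | hb)
    · exact hAi a ha b hb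
    · exact hb.2 a ha
    · exact (hW' (hA' hb)).2.2.2.2 a ha.1
    · exact hSi a ha.1 b hb.1
  · rintro v (hv | hv | hv)
    · rcases hSA v hv with h | ⟨a, ha, h⟩
      · exact Or.inl h
      · exact Or.inr ⟨a, Or.inl ha, Or.inl h⟩
    · rcases hAd v hv with h | ⟨a, ha, h | ⟨u, hu, h1, h2⟩⟩
      · exact Or.inl (Or.inl h)
      · exact Or.inr ⟨a, Or.inl ha, Or.inl h⟩
      · exact Or.inr ⟨a, Or.inl ha, Or.inr ⟨u, Or.inr (Or.inl hu), h1, h2⟩⟩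
    · obtain ⟨s, hs, hsv⟩ := hv.2.2.2.2
      rcases hSA s hs with h | ⟨a, ha, h⟩
      · exact Or.inr ⟨s, h, Or.inl hsv⟩
      · exact Or.inr ⟨a, Or.inl ha, Or.inr ⟨s, Or.inl hs, h, hsv⟩⟩
  · rintro v (hv | hv)
    · exact hUW v (hB' hv).1 (hB' hv).2
    · exact hMW v hv.1
  · rintro a (ha | ha) b (hb | hb)
    · exact hBi a ha b hb
    · exact (hB' ha).1.2.2.1 b hb.1
    · exact ha.2 b hb
    · exact hMi a ha.1 b hb.1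
  · rintro v ⟨hvX, hvW⟩
    by_cases hvM : v ∈ M
    · rcases hMB v hvM with h | ⟨b, hb, h⟩
      · exact Or.inl h
      · exact Or.inr ⟨b, Or.inl hb, Or.inl h⟩
    by_cases hvm : ∃ m ∈ M, G.Adj v m
    · obtain ⟨m, hm, hvm⟩ := hvm
      rcases hMB m hm with h | ⟨b, hb, h⟩
      · exact Or.inr ⟨m, h, Or.inl hvm⟩
      · exact Or.inr ⟨b, Or.inl hb, Or.inr ⟨m, hMW m hm, hvm, h⟩⟩
    push Not at hvm
    have hvs : v ∉ S := fun h => hvW (Or.inl h)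
    have hsv : ∀ s ∈ S, ¬ G.Adj s v :=
      fun s hs h => hvW (Or.inr (Or.inr ⟨hvX, hvM, hvm, hvs, s, hs, h⟩))
    have hvU : v ∈ U := ⟨hvX, hvM, hvm, hvs, hsv⟩
    have hvW' : v ∉ W' := fun h => hvW (Or.inr (Or.inl h))
    rcases hBd v ⟨hvU, hvW'⟩ with h | ⟨b, hb, h | ⟨u, hu, h1, h2⟩⟩
    · exact Or.inl (Or.inl h)
    · exact Or.inr ⟨b, Or.inl hb, Or.inl h⟩
    · exact Or.inr ⟨b, Or.inl hb, Or.inr ⟨u, hUW u hu.1 hu.2, h1, h2⟩⟩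

/-- one step: an unsolvable set `X`, a part `Q` of it such that `X \ Q` has hereditarily quasi-sinks,
and a set `F` hereditarily with quasi-kernels -/
theorem unsolv_step_mixed (hl : ∀ v, ¬ G.Adj v v) {X Q F F₂ : Set V} (hX : ¬ Solv G X)
    (hXQ : ∀ v ∈ X, v ∉ Q → v ∈ F₂)
    (hF : ∀ Y ⊆ F, HasQK G Y) (hF₂ : ∀ Y ⊆ F₂, HasQS G Y) :
    ∃ s ∈ X ∩ Q, s ∉ F ∧ ∃ U ⊆ X, ¬ Solv G U ∧
      ∀ u ∈ U ∩ Q, u ≠ s ∧ ¬ G.Adj u s ∧ ¬ G.Adj s u := by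
  obtain ⟨A, hAF, hAi, hAd⟩ := hF (X ∩ Q ∩ F) Set.inter_subset_right
  obtain ⟨M, hM, hAM, hMi, hMmax⟩ := exists_max_indep_ext hl (X ∩ Q) A
    (hAF.trans Set.inter_subset_left) hAi
  by_cases hq : ∀ v ∈ X ∩ Q, v ∈ M ∨ ∃ a ∈ M, G.Adj a v ∨ ∃ u ∈ X ∩ Q, G.Adj a u ∧ G.Adj u v
  · exfalso
    apply hX
    have hXQ' : X \ (X ∩ Q) ⊆ F₂ := by
      rintro v ⟨hv, hvQ⟩
      exact hXQ v hv fun h => hvQ ⟨hv, h⟩
    exact ⟨X ∩ Q, Set.inter_subset_left, ⟨M, hM, hMi, hq⟩, hF₂ _ hXQ'⟩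
  · push Not at hq
    obtain ⟨s, hs, hsM, hsr⟩ := hq
    have hsF : s ∉ F := by
      intro hsF
      rcases hAd s ⟨hs, hsF⟩ with h | ⟨a, ha, h | ⟨u, hu, h1, h2⟩⟩
      · exact hsM (hAM h)
      · exact (hsr a (hAM ha)).1 h
      · exact (hsr a (hAM ha)).2 u hu.1 h1 h2
    refine ⟨s, hs, hsF, {u | u ∈ X ∧ u ∉ M ∧ (∀ m ∈ M, ¬ G.Adj u m) ∧ u ∉ ({s} : Set V) ∧
      ∀ s' ∈ ({s} : Set V), ¬ G.Adj s' u}, fun u hu => hu.1, ?_, ?_⟩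
    · intro h
      refine hX (Solv.red (hM.trans Set.inter_subset_left) hMi
        (Set.singleton_subset_iff.2 hs.1) ?_ ?_ h)
      · rintro a ha b hb
        rw [Set.mem_singleton_iff] at ha hb
        subst ha; subst hb; exact hl _
      · rintro a ha
        rw [Set.mem_singleton_iff] at ha
        subst ha; exact hsM
    · rintro u ⟨⟨h1, h2, h3, h4, h5⟩, huQ⟩
      have h5' : ¬ G.Adj s u := h5 s rfl
      refine ⟨h4, ?_, h5'⟩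
      intro hus
      obtain ⟨m, hm, h | h⟩ := hMmax u ⟨h1, huQ⟩ h2
      · exact h3 m hm h
      · exact (hsr m hm).2 u ⟨h1, huQ⟩ h hus

/-- an unsolvable set contains an infinite independent set avoiding a given hereditarily
quasi-kernelled set and a given set with hereditary quasi-sinks -/
theorem exists_indep_seq_mixed (hl : ∀ v, ¬ G.Adj v v) {X F F₂ : Set V} (hX : ¬ Solv G X)
    (hF : ∀ Y ⊆ F, HasQK G Y) (hF₂ : ∀ Y ⊆ F₂, HasQS G Y) :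
    ∃ f : ℕ → V, (∀ n, f n ∈ X ∧ f n ∉ F ∧ f n ∉ F₂) ∧
      ∀ i j, i ≠ j → f i ≠ f j ∧ ¬ G.Adj (f i) (f j) := by
  classical
  let T := {Y : Set V // Y ⊆ X ∧ ¬ Solv G Y}
  have hstep : ∀ Y : T, ∃ p : V × T, (p.1 ∈ Y.1 ∧ p.1 ∉ F ∧ p.1 ∉ F₂) ∧ p.2.1 ⊆ Y.1 ∧
      ∀ u ∈ p.2.1, u ∉ F₂ → u ≠ p.1 ∧ ¬ G.Adj u p.1 ∧ ¬ G.Adj p.1 u := by
    rintro ⟨Y, hY, hYs⟩
    obtain ⟨s, hs, hsF, U, hU, hUs, h⟩ := unsolv_step_mixed hl hYs (Q := F₂ᶜ) (F := F) (F₂ := F₂)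
      (fun v _ hv => not_not.1 hv) hF hF₂
    exact ⟨(s, ⟨U, hU.trans hY, hUs⟩), ⟨hs.1, hsF, hs.2⟩, hU, fun u hu hu2 => h u ⟨hu, hu2⟩⟩
  choose g hg1 hg2 hg3 using hstep
  let Y : ℕ → T := fun n => Nat.rec ⟨X, subset_rfl, hX⟩ (fun _ Z => (g Z).2) n
  have hY : ∀ n, Y (n+1) = (g (Y n)).2 := fun n => rfl
  have hanti : ∀ m n, m ≤ n → (Y n).1 ⊆ (Y m).1 := by
    intro m n hmn
    induction hmn with
    | refl => exact subset_rfl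
    | step _ ih => rw [hY]; exact (hg2 _).trans ih
  refine ⟨fun n => (g (Y n)).1, fun n => ⟨(Y n).2.1 (hg1 _).1, (hg1 _).2⟩, ?_⟩
  have key : ∀ i j, i < j → (g (Y i)).1 ≠ (g (Y j)).1 ∧ ¬ G.Adj (g (Y i)).1 (g (Y j)).1 ∧
      ¬ G.Adj (g (Y j)).1 (g (Y i)).1 := by
    intro i j hij
    have h1 : (g (Y j)).1 ∈ (g (Y i)).2.1 := by
      have := hanti (i+1) j hij (hg1 (Y j)).1
      rwa [hY] at this
    obtain ⟨h2, h3, h4⟩ := hg3 (Y i) _ h1 (hg1 (Y j)).2.2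
    exact ⟨h2.symm, h4, h3⟩
  intro i j hij
  rcases lt_or_gt_of_ne hij with h | h
  · exact ⟨(key i j h).1, (key i j h).2.1⟩
  · exact ⟨(key j i h).1.symm, (key j i h).2.2⟩

/-- the partial result -/
theorem solv_of_mixed (hl : ∀ v, ¬ G.Adj v v)
    (h : ∀ c : V, ∃ F₁ F₂ : Set V, (∀ Y ⊆ F₁, HasQK G Y) ∧ (∀ Y ⊆ F₂, HasQS G Y) ∧
      ∀ f : ℕ → V, Function.Injective f →
        (∀ i, Relation.EqvGen G.Adj c (f i) ∧ f i ∉ F₁ ∧ f i ∉ F₂) →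
        ∃ i j, G.Adj (f i) (f j)) :
    Solv G Set.univ := by
  apply solv_of_components
  intro c
  obtain ⟨F₁, F₂, h1, h2, h3⟩ := h c
  by_contra hcon
  obtain ⟨f, hf, hfi⟩ := exists_indep_seq_mixed hl hcon h1 h2
  obtain ⟨i, j, hij⟩ := h3 f (fun i j hij => by
    by_contra hne
    exact (hfi i j hne).1 hij) (fun i => hf i)
  by_cases hne : i = j
  · subst hne
    exact hl _ hij
  · exact (hfi i j hne).2 hij

end Run7.h461.KS
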